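import Pool.Agent.P.MP_eb4d96_pr.Potential

namespace Pool.Agent.Results.MP_eb4d96_pr.UniformDomain

open scoped Matrix
open Pool.Agent.P.MP_eb4d96_pr

/-- Q2 (and hence Q1, by taking all fugacities equal): for every Δ ≥ 2 there is a domain D of the
complex plane containing the interval [0, 1/(Δ-1)] and avoiding -1 such that, for every finite
graph G of maximum degree at most Δ and all fugacities w x in D, the heat-bath transition matrix
P of the hard-core model fixes the constants and has spr(P) < 1. -/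
theorem result (Δ : ℕ) (hΔ : 2 ≤ Δ) :
    ∃ D : Set ℂ, IsOpen D ∧ IsConnected D ∧ (-1 : ℂ) ∉ D ∧
      (∀ t : ℝ, 0 ≤ t → t ≤ 1 / ((Δ : ℝ) - 1) → (t : ℂ) ∈ D) ∧
      ∀ (V : Type) [Fintype V] [DecidableEq V] [Nonempty V] (G : SimpleGraph V)
        [DecidableRel G.Adj], G.maxDegree ≤ Δ → ∀ w : V → ℂ, (∀ x, w x ∈ D) →
          ∃ h : glauber G w *ᵥ 1 = 1, spr (glauber G w) h < 1 := by
  obtain ⟨ε, hε0, hε1, h⟩ := main Δ hΔ
  have hD : (2 : ℝ) ≤ Δ := by exact_mod_cast hΔ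
  have hpos : (0 : ℝ) ≤ 1 / ((Δ : ℝ) - 1) := div_nonneg zero_le_one (by linarith)
  set S : Set ℂ := Complex.ofRealCLM '' Set.Icc (0 : ℝ) (1 / ((Δ : ℝ) - 1)) with hS
  have hSc : Convex ℝ S := (convex_Icc _ _).linear_image Complex.ofRealCLM.toLinearMap
  have hmem : ∀ t : ℝ, 0 ≤ t → t ≤ 1 / ((Δ : ℝ) - 1) → (t : ℂ) ∈ Metric.thickening ε S :=
    fun t h0 h1 => Metric.self_subset_thickening hε0 S ⟨t, ⟨h0, h1⟩, rfl⟩
  have hnear : ∀ z ∈ Metric.thickening ε S,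
      ∃ τ : ℝ, 0 ≤ τ ∧ τ ≤ 1 / ((Δ : ℝ) - 1) ∧ ‖z - τ‖ < ε := by
    intro z hz
    obtain ⟨_, ⟨τ, ⟨h0, h1⟩, rfl⟩, h2⟩ := Metric.mem_thickening_iff.1 hz
    exact ⟨τ, h0, h1, by simpa [dist_eq_norm] using h2⟩
  refine ⟨Metric.thickening ε S, Metric.isOpen_thickening,
    (hSc.thickening ε).isConnected ⟨_, hmem 0 le_rfl hpos⟩, ?_, hmem, ?_⟩
  · intro hz
    obtain ⟨τ, h0, -, h2⟩ := hnear _ hz
    rw [show (-1 - τ : ℂ) = ((-1 - τ : ℝ) : ℂ) by push_cast; ring, Complex.norm_real,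
      Real.norm_eq_abs, abs_lt] at h2
    linarith [h2.1]
  · intro V _ _ _ G _ hG w hw
    exact h V G hG w fun x => hnear _ (hw x)

end Pool.Agent.Results.MP_eb4d96_pr.UniformDomain
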